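import Pool.Agent.Helper97.RE.Defs

/-!
# Rational exponent conjecture, piece G1: the graph `op k H`
-/

set_option autoImplicit false
set_option linter.unusedVariables false

namespace Pool.Agent.Helper97.RE
open Finset

namespace BG

variable {H : BG}

lemma pt_zero (k : ℕ) (e : H.E) : pt k e 0 = (Sum.inl e.1.1 : opV k H) := by
  simp [pt]

lemma pt_last (k : ℕ) (e : H.E) : pt k e (k + 1) = (Sum.inl e.1.2 : opV k H) := by
  simp [pt]

lemma pt_inner (k : ℕ) (e : H.E) (i : ℕ) (h : i < k) :
    pt k e (i + 1) = (Sum.inr (Sum.inl (e, ⟨i, h⟩)) : opV k H) := by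
  simp [pt, h]

lemma opc_pt (k : ℕ) (e : H.E) (i : ℕ) (hi : i ≤ k + 1) :
    opc k H (pt k e i) = decide (i % 2 = 1) := by
  rcases Nat.eq_zero_or_pos i with rfl | h0
  · rw [pt_zero]
    simp [opc, e.2.2.1]
  · obtain ⟨j, rfl⟩ : ∃ j, i = j + 1 := ⟨i - 1, by omega⟩
    rcases Nat.lt_or_ge j k with h | h
    · rw [pt_inner k e j h]; rfl
    · have : j = k := by omega
      subst this
      rw [pt_last]
      simp [opc, e.2.2.2]

lemma opc_step (k : ℕ) (e : H.E) (i : ℕ) (hi : i < k + 1) :
    opc k H (pt k e i) ≠ opc k H (pt k e (i + 1)) := by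
  rw [opc_pt k e i (by omega), opc_pt k e (i + 1) (by omega)]
  intro h
  rw [decide_eq_decide] at h
  omega

lemma opc_apex (k : ℕ) (a : H.V) : opc k H (apex k (H.c a)) ≠ opc k H (Sum.inl a) := by
  cases h : H.c a <;> simp [opc, apex, h]

lemma opc_rel (k : ℕ) {x y : opV k H} (h : opRel k H x y) : opc k H x ≠ opc k H y := by
  rcases h with ⟨e, i, hi, rfl, rfl⟩ | ⟨a, rfl, rfl⟩
  · exact opc_step k e i hi
  · exact opc_apex k a

lemma adj_of_rel (k : ℕ) {x y : opV k H} (h : opRel k H x y) : (opG k H).Adj x y := by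
  rw [opG, SimpleGraph.fromRel_adj]
  refine ⟨?_, Or.inl h⟩
  rintro rfl
  exact opc_rel k h rfl

lemma adj_pt (k : ℕ) (e : H.E) (i : ℕ) (hi : i < k + 1) :
    (opG k H).Adj (pt k e i) (pt k e (i + 1)) :=
  adj_of_rel k (Or.inl ⟨e, i, hi, rfl, rfl⟩)

lemma adj_apex (k : ℕ) (a : H.V) : (opG k H).Adj (apex k (H.c a)) (Sum.inl a) :=
  adj_of_rel k (Or.inr ⟨a, rfl, rfl⟩)

lemma reach_pt (k : ℕ) (e : H.E) (i : ℕ) (hi : i ≤ k + 1) :
    (opG k H).Reachable (Sum.inl e.1.1) (pt k e i) := by
  induction i with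
  | zero => rw [pt_zero]
  | succ i ih => exact (ih (by omega)).trans (adj_pt k e i (by omega)).reachable

lemma reach_ends (k : ℕ) (e : H.E) :
    (opG k H).Reachable (Sum.inl e.1.1) (Sum.inl e.1.2) := by
  have := reach_pt k e (k + 1) le_rfl
  rwa [pt_last] at this

lemma reach_edge (k : ℕ) {a b : H.V} (h : H.G.Adj a b) :
    (opG k H).Reachable (Sum.inl a) (Sum.inl b) := by
  have hne := H.proper h
  cases ha : H.c a <;> cases hb : H.c b
  · rw [ha, hb] at hne; exact absurd rfl hne
  · exact reach_ends k (⟨(a, b), h, ha, hb⟩ : H.E)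
  · exact (reach_ends k (⟨(b, a), h.symm, hb, ha⟩ : H.E)).symm
  · rw [ha, hb] at hne; exact absurd rfl hne

lemma reach_inl (k : ℕ) (a b : H.V) : (opG k H).Reachable (Sum.inl a) (Sum.inl b) := by
  obtain ⟨w⟩ := H.conn.preconnected a b
  induction w with
  | nil => exact SimpleGraph.Reachable.refl _
  | cons h _ ih => exact (reach_edge k h).trans ih

end BG

theorem opG_proper (k : ℕ) (H : BG) : ∀ ⦃a b : BG.opV k H⦄, (BG.opG k H).Adj a b →
    BG.opc k H a ≠ BG.opc k H b := by
  intro a b h
  rw [BG.opG, SimpleGraph.fromRel_adj] at h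
  rcases h.2 with h | h
  · exact BG.opc_rel k h
  · exact (BG.opc_rel k h).symm

theorem opG_conn (k : ℕ) (H : BG) : (BG.opG k H).Connected := by
  obtain ⟨a0⟩ := H.conn.nonempty
  have key : ∀ x : BG.opV k H, (BG.opG k H).Reachable (Sum.inl a0) x := by
    rintro (a | ⟨⟨e, i⟩⟩ | b)
    · exact BG.reach_inl k a0 a
    · have := BG.reach_pt k e (i + 1) (by omega)
      rw [BG.pt_inner k e i i.2] at this
      exact (BG.reach_inl k a0 _).trans this
    · obtain ⟨a, rfl⟩ := H.both b
      exact (BG.reach_inl k a0 a).trans (BG.adj_apex k a).symm.reachable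
  have : Nonempty (BG.opV k H) := ⟨Sum.inl a0⟩
  exact ⟨fun x y => (key x).symm.trans (key y)⟩

theorem opG_both (k : ℕ) (H : BG) : ∀ t : Bool, ∃ a, BG.opc k H a = t := by
  intro t
  cases t
  · obtain ⟨a, ha⟩ := H.both false
    exact ⟨Sum.inl a, by simp [BG.opc, ha]⟩
  · exact ⟨BG.apex k false, rfl⟩

/-- the operation `O_(k+1)` -/
noncomputable def BG.op (k : ℕ) (H : BG) : BG where
  V := BG.opV k H
  G := BG.opG k H
  c := BG.opc k H
  proper := opG_proper k H
  conn := opG_conn k H
  both := opG_both k H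

/-- containment from explicit data (inner vertices `g e i`) -/
theorem opG_contained_of_data (k : ℕ) (H : BG) {W : Type*} (G : SimpleGraph W)
    (F : BG.opV k H → W) (hF : Function.Injective F)
    (hs : ∀ a, G.Adj (F (BG.apex k (H.c a))) (F (Sum.inl a)))
    (hp : ∀ (e : H.E) (i : ℕ), i < k + 1 → G.Adj (F (BG.pt k e i)) (F (BG.pt k e (i + 1)))) :
    (BG.opG k H).IsContained G := by
  have hrel : ∀ x y, BG.opRel k H x y → G.Adj (F x) (F y) := by
    rintro x y (⟨e, i, hi, rfl, rfl⟩ | ⟨a, rfl, rfl⟩)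
    · exact hp e i hi
    · exact hs a
  refine ⟨⟨⟨F, ?_⟩, hF⟩⟩
  intro x y h
  rw [BG.opG, SimpleGraph.fromRel_adj] at h
  rcases h.2 with h | h
  · exact hrel _ _ h
  · exact (hrel _ _ h).symm

/-- greedy embedding from rich pairs -/
theorem opG_contained_of_rich (k : ℕ) (H : BG) {W : Type*} [DecidableEq W] (G : SimpleGraph W)
    (f : H.V → W) (hf : Function.Injective f) (s t : W) (hst : s ≠ t)
    (hs : ∀ a, f a ≠ s) (ht : ∀ a, f a ≠ t)
    (hsA : ∀ a, H.c a = false → G.Adj s (f a)) (htB : ∀ a, H.c a = true → G.Adj t (f a))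
    (hrich : ∀ e : H.E, Rich G (k + 1) (Fintype.card (BG.opV k H)) (f e.1.1) (f e.1.2)) :
    (BG.opG k H).IsContained G := by
  classical
  set base : Finset W := Finset.univ.image f ∪ {s, t} with hbase
  have hbase_card : base.card ≤ Fintype.card H.V + 2 := by
    refine (Finset.card_union_le _ _).trans (Nat.add_le_add ?_ ?_)
    · exact Finset.card_image_le.trans (le_of_eq Finset.card_univ)
    · exact Finset.card_le_two
  have key : ∀ S : Finset H.E, ∃ q : H.E → Fin (k + 1 + 1) → W,
      (∀ e ∈ S, IsPath G (q e) ∧ q e 0 = f e.1.1 ∧ q e (Fin.last (k + 1)) = f e.1.2) ∧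
      (∀ e ∈ S, ∀ i, i ≠ 0 → i ≠ Fin.last (k + 1) → q e i ∉ base) ∧
      (∀ e ∈ S, ∀ e' ∈ S, e ≠ e' → ∀ i i', i ≠ 0 → i ≠ Fin.last (k + 1) → i' ≠ 0 →
        i' ≠ Fin.last (k + 1) → q e i ≠ q e' i') := by
    intro S
    induction S using Finset.induction_on with
    | empty => exact ⟨fun _ _ => s, by simp, by simp, by simp⟩
    | insert e0 S he0 ih =>
      obtain ⟨q, h1, h2, h3⟩ := ih
      set Z : Finset W := base ∪ S.biUnion fun e =>
        (Finset.univ : Finset (Fin k)).image fun i => q e i.succ.castSucc with hZ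
      have hZc : Z.card ≤ Fintype.card (BG.opV k H) := by
        have e1 : Fintype.card (BG.opV k H) =
            Fintype.card H.V + (Fintype.card H.E * k + 2) := by
          simp [BG.opV]
        have e2 : (S.biUnion fun e =>
            (Finset.univ : Finset (Fin k)).image fun i => q e i.succ.castSucc).card ≤
            S.card * k := by
          refine Finset.card_biUnion_le_card_mul _ _ _ fun e _ => ?_
          exact Finset.card_image_le.trans (by simp)
        have e3 : S.card * k ≤ Fintype.card H.E * k :=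
          Nat.mul_le_mul_right _ (Finset.card_le_univ S)
        have := Finset.card_union_le base (S.biUnion fun e =>
          (Finset.univ : Finset (Fin k)).image fun i => q e i.succ.castSucc)
        rw [e1, hZ]
        omega
      obtain ⟨p, hp, hp0, hp1, hpZ⟩ := hrich e0 Z hZc
      have hmem : ∀ e ∈ S, ∀ i : Fin (k + 1 + 1), i ≠ 0 → i ≠ Fin.last (k + 1) → q e i ∈ Z := by
        intro e he i hi0 hi1
        rw [hZ, Finset.mem_union]
        right
        rw [Finset.mem_biUnion]
        refine ⟨e, he, ?_⟩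
        rw [Finset.mem_image]
        have hi0' : (i : ℕ) ≠ 0 := fun h => hi0 (Fin.ext h)
        have hi1' : (i : ℕ) ≠ k + 1 := fun h => hi1 (Fin.ext h)
        refine ⟨⟨(i : ℕ) - 1, by omega⟩, Finset.mem_univ _, ?_⟩
        congr 1
        apply Fin.ext
        simp
        omega
      have hne : ∀ e ∈ S, e ≠ e0 := fun e he h => he0 (h ▸ he)
      refine ⟨fun e => if e = e0 then p else q e, ?_, ?_, ?_⟩
      · intro e he
        rcases Finset.mem_insert.1 he with rfl | he
        · simp only [if_true]; exact ⟨hp, hp0, hp1⟩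
        · simp only [if_neg (hne e he)]; exact h1 e he
      · intro e he i hi0 hi1
        rcases Finset.mem_insert.1 he with h | h
        · subst h
          simp only [if_true]
          exact fun h => hpZ i hi0 hi1 (by rw [hZ]; exact Finset.mem_union_left _ h)
        · simp only [if_neg (hne e h)]; exact h2 e h i hi0 hi1
      · intro e he e' he' hee i i' hi0 hi1 hi0' hi1'
        rcases Finset.mem_insert.1 he with h | h <;> rcases Finset.mem_insert.1 he' with h' | h'
        · exact absurd (h.trans h'.symm) hee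
        · simp only [if_pos h, if_neg (hne e' h')]
          intro h4
          exact hpZ i hi0 hi1 (h4 ▸ hmem e' h' i' hi0' hi1')
        · simp only [if_pos h', if_neg (hne e h)]
          intro h4
          exact hpZ i' hi0' hi1' (h4 ▸ hmem e h i hi0 hi1)
        · simp only [if_neg (hne e h), if_neg (hne e' h')]
          exact h3 e h e' h' hee i i' hi0 hi1 hi0' hi1'
  obtain ⟨q, h1, h2, h3⟩ := key Finset.univ
  set F : BG.opV k H → W := fun x => match x with
    | Sum.inl a => f a
    | Sum.inr (Sum.inl y) => q y.1 y.2.succ.castSucc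
    | Sum.inr (Sum.inr b) => if b then t else s with hFdef
  have hF1 : ∀ a, F (Sum.inl a) = f a := fun a => rfl
  have hF2 : ∀ e i, F (Sum.inr (Sum.inl (e, i))) = q e i.succ.castSucc := fun e i => rfl
  have hF3 : ∀ b, F (Sum.inr (Sum.inr b)) = if b then t else s := fun b => rfl
  have hin0 : ∀ i : Fin k, (i.succ.castSucc : Fin (k + 1 + 1)) ≠ 0 := by
    intro i h
    have := congrArg Fin.val h
    simp at this
  have hin1 : ∀ i : Fin k, (i.succ.castSucc : Fin (k + 1 + 1)) ≠ Fin.last (k + 1) := by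
    intro i h
    have := congrArg Fin.val h
    simp at this
    omega
  have hbf : ∀ a, f a ∈ base := fun a => by
    rw [hbase]; exact Finset.mem_union_left _ (Finset.mem_image_of_mem f (Finset.mem_univ a))
  have hbs : ∀ b : Bool, (if b then t else s) ∈ base := fun b => by
    rw [hbase]; refine Finset.mem_union_right _ ?_
    cases b <;> simp
  have hq : ∀ e i, q e (Fin.castSucc (Fin.succ i)) ∉ base := fun e i =>
    h2 e (Finset.mem_univ _) _ (hin0 i) (hin1 i)
  have hfst : ∀ (a : H.V) (b : Bool), f a ≠ if b then t else s := by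
    intro a b
    cases b
    · exact hs a
    · exact ht a
  have hpath : ∀ (e : H.E) (i : ℕ) (hi : i < k + 1 + 1), F (BG.pt k e i) = q e ⟨i, hi⟩ := by
    intro e i hi
    rcases Nat.eq_zero_or_pos i with rfl | h0
    · rw [BG.pt_zero, hF1, ← (h1 e (Finset.mem_univ _)).2.1]; rfl
    · obtain ⟨j, rfl⟩ : ∃ j, i = j + 1 := ⟨i - 1, by omega⟩
      rcases Nat.lt_or_ge j k with h | h
      · rw [BG.pt_inner k e j h, hF2]; rfl
      · have : j = k := by omega
        subst this
        rw [BG.pt_last, hF1, ← (h1 e (Finset.mem_univ _)).2.2]; rfl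
  refine opG_contained_of_data k H G F ?_ ?_ ?_
  · rintro (a | ⟨⟨e, i⟩⟩ | b) (a' | ⟨⟨e', i'⟩⟩ | b') h
    · rw [hF1, hF1] at h; rw [hf h]
    · rw [hF1, hF2] at h; exact absurd (h ▸ hbf a) (hq e' i')
    · rw [hF1, hF3] at h; exact absurd h (hfst a b')
    · rw [hF1, hF2] at h; exact absurd (h ▸ hbf a') (hq e i)
    · rw [hF2, hF2] at h
      by_cases hee : e = e'
      · subst hee
        have := (h1 e (Finset.mem_univ _)).1.1 h
        rw [Fin.castSucc_inj, Fin.succ_inj] at this
        rw [this]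
      · exact absurd h (h3 e (Finset.mem_univ _) e' (Finset.mem_univ _) hee _ _ (hin0 i) (hin1 i)
          (hin0 i') (hin1 i'))
    · rw [hF2, hF3] at h; exact absurd (h ▸ hbs b') (hq e i)
    · rw [hF1, hF3] at h; exact absurd h.symm (hfst a' b)
    · rw [hF2, hF3] at h; exact absurd (h ▸ hbs b) (hq e' i')
    · rw [hF3, hF3] at h
      cases b <;> cases b' <;> simp at h ⊢
      · exact hst h
      · exact hst h.symm
  · intro a
    rw [BG.apex, hF3, hF1]
    cases h : H.c a
    · exact hsA a h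
    · exact htB a h
  · intro e i hi
    rw [hpath e i (by omega), hpath e (i + 1) (by omega)]
    exact (h1 e (Finset.mem_univ _)).1.2 ⟨i, hi⟩

end Pool.Agent.Helper97.RE
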