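import Pool.Agent.Helper71.RE.Count

/-!
# Rational exponent conjecture: the final count (step (3)), second part
-/

set_option autoImplicit false

namespace Pool.Agent.Helper97.RE
open Finset

/-- the clean paths of length `j` from `x` to `y` -/
noncomputable def cset {W : Type*} [Fintype W] [DecidableEq W] (G : SimpleGraph W) (L : ℕ)
    (R : ℕ → ℕ) (j : ℕ) (x y : W) : Finset (Fin (j + 1) → W) := by
  classical
  exact (PP G j).filter fun p => Clean G L R p ∧ p 0 = x ∧ p (Fin.last j) = y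

lemma mem_cset {W : Type*} [Fintype W] [DecidableEq W] {G : SimpleGraph W} {L : ℕ} {R : ℕ → ℕ}
    {j : ℕ} {x y : W} {p : Fin (j + 1) → W} :
    p ∈ cset G L R j x y ↔ (IsPath G p ∧ Clean G L R p) ∧ p 0 = x ∧ p (Fin.last j) = y := by
  classical
  simp only [cset, mem_filter, mem_PP, and_assoc]

lemma card_cset {W : Type*} [Fintype W] [DecidableEq W] (G : SimpleGraph W) (L : ℕ) (R : ℕ → ℕ)
    (j : ℕ) (x y : W) : #(cset G L R j x y) = cnt G L R j x y := by
  classical
  unfold cset cnt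
  congr

/-- paths with given second and second to last vertex -/
lemma card_ends {W : Type*} [Fintype W] [DecidableEq W] (G : SimpleGraph W) (L : ℕ) (R : ℕ → ℕ)
    (k : ℕ) (s t a b : W) (S : Finset (Fin (k + 3 + 1) → W))
    (hS : ∀ p ∈ S, p ∈ cset G L R (k + 3) s t ∧ p ⟨1, by omega⟩ = a ∧
      p ⟨k + 2, by omega⟩ = b) : S.card ≤ cnt G L R (k + 1) a b := by
  rw [← card_cset]
  refine Finset.card_le_card_of_injOn (fun p => win p 1 (k + 1) (by omega)) ?_ ?_
  · intro p hp
    obtain ⟨h1, h2, h3⟩ := hS p hp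
    rw [mem_cset] at h1
    rw [Finset.mem_coe, mem_cset]
    refine ⟨⟨h1.1.1.win 1 (k + 1) (by omega), h1.1.2.win 1 (k + 1) (by omega)⟩, ?_, ?_⟩
    · rw [← h2]; rfl
    · rw [← h3]; dsimp only [win]; congr 1; apply Fin.ext; simp; omega
  · intro p hp q hq hpq
    obtain ⟨h1, -, -⟩ := hS p hp
    obtain ⟨h1', -, -⟩ := hS q hq
    rw [mem_cset] at h1 h1'
    ext i
    rcases Nat.eq_zero_or_pos (i : ℕ) with h0 | h0
    · have : i = 0 := Fin.ext h0
      rw [this, h1.2.1, h1'.2.1]
    · rcases Nat.lt_or_ge (i : ℕ) (k + 3) with h3 | h3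
      · have := congrFun hpq ⟨i - 1, by omega⟩
        have e : 1 + ((i : ℕ) - 1) = i := by omega
        simpa [win, e] using this
      · have : i = Fin.last (k + 3) := Fin.ext (by simp; omega)
        rw [this, h1.2.2, h1'.2.2]

lemma card_through' {W : Type*} [Fintype W] [DecidableEq W] (G : SimpleGraph W) (L : ℕ)
    (R : ℕ → ℕ) (j : ℕ) (x y z : W) (i : ℕ) (hi : i ≤ j) (S : Finset (Fin (j + 1) → W))
    (hS : ∀ p ∈ S, p ∈ cset G L R j x y ∧ p ⟨i, by omega⟩ = z) :
    S.card ≤ cnt G L R i x z * cnt G L R (j - i) z y := by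
  classical
  refine le_trans (Finset.card_le_card ?_) (cnt_split G L R j x y z i hi)
  intro p hp
  have h1 := hS p hp
  rw [mem_cset] at h1
  rw [Finset.mem_filter, mem_PP]
  exact ⟨h1.1.1.1, h1.1.1.2, h1.1.2.1, h1.1.2.2, h1.2⟩

lemma IsPath.rev {W : Type*} {G : SimpleGraph W} {n : ℕ} {p : Fin (n + 1) → W}
    (hp : IsPath G p) : IsPath G (fun i => p (Fin.rev i)) := by
  refine ⟨fun a b hab => ?_, fun i => ?_⟩
  · exact Fin.rev_injective (hp.1 hab)
  · have := hp.2 (Fin.rev i)
    dsimp only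
    rw [Fin.rev_castSucc, Fin.rev_succ]
    exact this.symm

theorem count_st (k : ℕ) (H : BG) {W : Type} [Fintype W] [DecidableEq W] (G : SimpleGraph W)
    (R : ℕ → ℕ) (s t : W)
    (hfree : (BG.opG k H).Free G) (N X : ℕ)
    (hN : ∀ S : Finset W, (∀ v ∈ S, G.Adj s v ∨ G.Adj t v) → S.card ≤ N)
    (hX : ∀ m ≤ N, SimpleGraph.extremalNumber m H.G ≤ X) :
    (cset G (k + 1) R (k + 3) s t).card ≤
      (k + 2) ^ (k + 2) * (((k + 1) * (Cb R (k + 1) * Cb R (k + 1))) * X) := by
  classical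
  -- labels
  obtain ⟨ℓ, hℓ⟩ := exists_labels (k + 1) (cset G (k + 1) R (k + 3) s t)
    (fun p i => p ⟨i + 1, by omega⟩) (by
      intro p hp a b hab
      rw [mem_cset] at hp
      have := congrArg Fin.val (hp.1.1.1 hab)
      simp only at this
      exact Fin.ext (by omega))
  set P1 := (cset G (k + 1) R (k + 3) s t).filter
    (fun p => ∀ i : Fin (k + 1 + 1), ℓ (p ⟨i + 1, by omega⟩) = i) with hP1
  have hP1mem : ∀ p ∈ P1, ((IsPath G p ∧ Clean G (k + 1) R p) ∧ p 0 = s ∧ p (Fin.last (k + 3)) = t) ∧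
      ∀ i : Fin (k + 1 + 1), ℓ (p ⟨i + 1, by omega⟩) = i := by
    intro p hp
    rw [hP1, Finset.mem_filter, mem_cset] at hp
    exact hp
  -- compatible paths
  obtain ⟨P', hP'sub, hP'ind, hP'card⟩ := exists_indep P1
    (fun p q => (∃ i : Fin k, p ⟨i + 2, by omega⟩ = q ⟨i + 2, by omega⟩) ∨
      (p ⟨1, by omega⟩ = q ⟨1, by omega⟩ ∧ p ⟨k + 2, by omega⟩ = q ⟨k + 2, by omega⟩))
    ((k + 1) * (Cb R (k + 1) * Cb R (k + 1))) (fun p _ => Or.inr ⟨rfl, rfl⟩)
    (by
      rintro p q (⟨i, hi⟩ | ⟨h1, h2⟩)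
      · exact Or.inl ⟨i, hi.symm⟩
      · exact Or.inr ⟨h1.symm, h2.symm⟩)
    (by
      intro q hq S hS
      have hsub : S ⊆ ((Finset.univ : Finset (Fin k)).biUnion fun i =>
          (cset G (k + 1) R (k + 3) s t).filter fun p =>
            p ⟨i + 2, by omega⟩ = q ⟨i + 2, by omega⟩) ∪
          (cset G (k + 1) R (k + 3) s t).filter fun p =>
            p ⟨1, by omega⟩ = q ⟨1, by omega⟩ ∧ p ⟨k + 2, by omega⟩ = q ⟨k + 2, by omega⟩ := by
        intro p hp
        obtain ⟨hp1, hp2⟩ := hS p hp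
        have hpc : p ∈ cset G (k + 1) R (k + 3) s t := Finset.mem_of_mem_filter p hp1
        rw [Finset.mem_union]
        rcases hp2 with ⟨i, hi⟩ | ⟨h1, h2⟩
        · left
          rw [Finset.mem_biUnion]
          exact ⟨i, Finset.mem_univ _, Finset.mem_filter.2 ⟨hpc, hi.symm⟩⟩
        · right
          exact Finset.mem_filter.2 ⟨hpc, h1.symm, h2.symm⟩
      have c1 : ∀ i : Fin k, ((cset G (k + 1) R (k + 3) s t).filter fun p =>
            p ⟨i + 2, by omega⟩ = q ⟨i + 2, by omega⟩).card ≤ (Cb R (k + 1) * Cb R (k + 1)) := by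
        intro i
        refine (card_through' G (k + 1) R (k + 3) s t (q ⟨i + 2, by omega⟩) (i + 2) (by omega) _
          fun p hp => Finset.mem_filter.1 hp).trans ?_
        have e1 := (cnt_le G (k + 1) R (i + 2) (by omega) s (q ⟨i + 2, by omega⟩)).trans
          (Cb_mono R (show (i : ℕ) + 2 ≤ k + 1 by omega))
        have e2 := (cnt_le G (k + 1) R (k + 3 - (i + 2)) (by omega) (q ⟨i + 2, by omega⟩) t).trans
          (Cb_mono R (show k + 3 - ((i : ℕ) + 2) ≤ k + 1 by omega))
        exact Nat.mul_le_mul e1 e2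
      have c2 : ((cset G (k + 1) R (k + 3) s t).filter fun p =>
            p ⟨1, by omega⟩ = q ⟨1, by omega⟩ ∧
              p ⟨k + 2, by omega⟩ = q ⟨k + 2, by omega⟩).card ≤
                (Cb R (k + 1) * Cb R (k + 1)) := by
        refine (card_ends G (k + 1) R k s t _ _ _ fun p hp => ?_).trans
          ((cnt_le G (k + 1) R (k + 1) le_rfl (q ⟨1, by omega⟩)
            (q ⟨k + 2, by omega⟩)).trans ?_)
        · rw [Finset.mem_filter] at hp
          exact hp
        · exact Nat.le_mul_of_pos_left _ (Cb_pos R (k + 1))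
      refine (Finset.card_le_card hsub).trans ((Finset.card_union_le _ _).trans ?_)
      have c3 := Finset.card_biUnion_le_card_mul (Finset.univ : Finset (Fin k)) (fun i =>
          (cset G (k + 1) R (k + 3) s t).filter fun p =>
            p ⟨i + 2, by omega⟩ = q ⟨i + 2, by omega⟩) ((Cb R (k + 1) * Cb R (k + 1))) fun i _ => c1 i
      rw [Finset.card_univ, Fintype.card_fin] at c3
      calc _ ≤ k * (Cb R (k + 1) * Cb R (k + 1)) + (Cb R (k + 1) * Cb R (k + 1)) := Nat.add_le_add c3 c2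
        _ = _ := by ring)
  -- the auxiliary graph
  have hmain : P'.card ≤ X := by
    set V' : Finset W := Finset.univ.filter fun v => G.Adj s v ∨ G.Adj t v with hV'
    have hV'N : V'.card ≤ N := hN V' fun v hv => (Finset.mem_filter.1 hv).2
    have hPmem := fun p (hp : p ∈ P') => hP1mem p (hP'sub hp)
    have hl1 : ∀ p ∈ P', ℓ (p ⟨1, by omega⟩) = 0 := fun p hp => (hPmem p hp).2 0
    have hl2 : ∀ p ∈ P', (ℓ (p ⟨k + 2, by omega⟩) : ℕ) = k + 1 := fun p hp =>
      congrArg Fin.val ((hPmem p hp).2 (Fin.last (k + 1)))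
    have ha1 : ∀ p ∈ P', G.Adj s (p ⟨1, by omega⟩) := by
      intro p hp
      obtain ⟨⟨h1, h2, h3⟩, h4⟩ := hPmem p hp
      rw [← h2]
      exact h1.1.2 ⟨0, by omega⟩
    have ha2 : ∀ p ∈ P', G.Adj t (p ⟨k + 2, by omega⟩) := by
      intro p hp
      obtain ⟨⟨h1, h2, h3⟩, h4⟩ := hPmem p hp
      rw [← h3]
      exact (h1.1.2 ⟨k + 2, by omega⟩).symm
    set F : SimpleGraph V' := SimpleGraph.fromRel fun u v =>
      ∃ p ∈ P', p ⟨1, by omega⟩ = (u : W) ∧ p ⟨k + 2, by omega⟩ = (v : W) with hF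
    by_cases hFH : H.G.Free F
    · have h1 := SimpleGraph.card_edgeFinset_le_extremalNumber hFH
      rw [Fintype.card_coe] at h1
      refine le_trans ?_ (h1.trans (hX _ hV'N))
      have hm1 : ∀ p ∈ P', p ⟨1, by omega⟩ ∈ V' := fun p hp =>
        Finset.mem_filter.2 ⟨Finset.mem_univ _, Or.inl (ha1 p hp)⟩
      have hm2 : ∀ p ∈ P', p ⟨k + 2, by omega⟩ ∈ V' := fun p hp =>
        Finset.mem_filter.2 ⟨Finset.mem_univ _, Or.inr (ha2 p hp)⟩
      rw [← Finset.card_attach]
      refine Finset.card_le_card_of_injOn (fun p : {x // x ∈ P'} =>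
        s((⟨p.1 ⟨1, by omega⟩, hm1 p.1 p.2⟩ : V'), (⟨p.1 ⟨k + 2, by omega⟩, hm2 p.1 p.2⟩ : V')))
        ?_ ?_
      · intro p _
        rw [Finset.mem_coe, SimpleGraph.mem_edgeFinset, SimpleGraph.mem_edgeSet, hF,
          SimpleGraph.fromRel_adj]
        refine ⟨?_, Or.inl ⟨p.1, p.2, rfl, rfl⟩⟩
        intro h
        have h2 := congrArg Subtype.val h
        simp only at h2
        have e1 := hl1 p.1 p.2
        have e2 := hl2 p.1 p.2
        rw [← h2, e1] at e2
        simp at e2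
      · intro p _ q _ hpq
        simp only [Sym2.eq_iff, Subtype.mk.injEq] at hpq
        rcases hpq with ⟨h1, h2⟩ | ⟨h1, h2⟩
        · by_contra hne
          exact hP'ind p.1 p.2 q.1 q.2 (fun h => hne (Subtype.ext h)) (Or.inr ⟨h1, h2⟩)
        · exfalso
          have e1 := hl1 p.1 p.2
          have e2 := hl2 q.1 q.2
          rw [← h1, e1] at e2
          simp at e2
    · exfalso
      unfold SimpleGraph.Free at hFH
      rw [not_not] at hFH
      obtain ⟨f⟩ := hFH
      set φ : H.V → W := fun a => (f a : W) with hφ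
      have hφi : Function.Injective φ := fun a b h => f.injective (Subtype.ext h)
      have hadjF : ∀ a b, H.G.Adj a b → (∃ p ∈ P', p ⟨1, by omega⟩ = φ a ∧
          p ⟨k + 2, by omega⟩ = φ b) ∨ (∃ p ∈ P', p ⟨1, by omega⟩ = φ b ∧
          p ⟨k + 2, by omega⟩ = φ a) := by
        intro a b hab
        have h1 : F.Adj (f a) (f b) := f.toHom.map_rel hab
        exact ((SimpleGraph.fromRel_adj _ _ _).1 h1).2
      have hinv : ∀ a b, H.G.Adj a b → ((((ℓ (φ a) : ℕ) = 0) ↔ H.c a = false) ↔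
          (((ℓ (φ b) : ℕ) = 0) ↔ H.c b = false)) := by
        intro a b hab
        have hc := H.proper hab
        have hl : (((ℓ (φ a) : ℕ) = 0) ↔ ¬ ((ℓ (φ b) : ℕ) = 0)) := by
          rcases hadjF a b hab with ⟨p, hp, h1, h2⟩ | ⟨p, hp, h1, h2⟩
          · rw [← h1, ← h2, hl1 p hp, hl2 p hp]; simp
          · rw [← h1, ← h2, hl1 p hp, hl2 p hp]; simp
        rw [hl]
        cases ha : H.c a <;> cases hb : H.c b <;> rw [ha, hb] at hc <;> simp at hc ⊢
      have hinv' : ∀ a b, ((((ℓ (φ a) : ℕ) = 0) ↔ H.c a = false) ↔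
          (((ℓ (φ b) : ℕ) = 0) ↔ H.c b = false)) := by
        intro a b
        obtain ⟨w⟩ := H.conn.preconnected a b
        induction w with
        | nil => exact Iff.rfl
        | cons h _ ih => exact (hinv _ _ h).trans ih
      by_cases hall : ∀ a, (((ℓ (φ a) : ℕ) = 0) ↔ H.c a = false)
      · have hex : ∀ e : H.E, ∃ p ∈ P', p ⟨1, by omega⟩ = φ e.1.1 ∧
            p ⟨k + 2, by omega⟩ = φ e.1.2 := by
          intro e
          rcases hadjF _ _ e.2.1 with h | ⟨p, hp, h1, h2⟩
          · exact h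
          · exfalso
            have h3 := (hall e.1.1).2 e.2.2.1
            rw [← h2, hl2 p hp] at h3
            omega
        choose q hq1 hq2 hq3 using hex
        refine hfree (embed_of_paths k H G s t φ hφi ℓ q (fun e => (hPmem _ (hq1 e)).1.1.1)
          (fun e => (hPmem _ (hq1 e)).1.2.1) hq2 hq3 (fun e => (hPmem _ (hq1 e)).1.2.2)
          (fun e i => (hPmem _ (hq1 e)).2 i) ?_)
        intro e e' hee i h
        refine hP'ind _ (hq1 e) _ (hq1 e') ?_ (Or.inl ⟨i, h⟩)
        intro h2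
        apply hee
        have h3 : φ e.1.1 = φ e'.1.1 := by rw [← hq2, ← hq2, h2]
        have h4 : φ e.1.2 = φ e'.1.2 := by rw [← hq3, ← hq3, h2]
        exact Subtype.ext (Prod.ext (hφi h3) (hφi h4))
      · have hall' : ∀ a, (((ℓ (φ a) : ℕ) = 0) ↔ H.c a = true) := by
          push Not at hall
          obtain ⟨a0, ha0⟩ := hall
          intro a
          have h1 : ¬ (((ℓ (φ a) : ℕ) = 0) ↔ H.c a = false) := by
            rw [← hinv' a0 a]
            rcases ha0 with ⟨h1, h2⟩ | ⟨h1, h2⟩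
            · exact fun h => h2 (h.1 h1)
            · exact fun h => h1 (h.2 h2)
          cases h : H.c a
          · rw [h] at h1
            simp only [iff_true] at h1
            simp [h1]
          · rw [h] at h1
            simp only [Bool.true_eq_false, iff_false, not_not] at h1
            simp [h1]
        have hex : ∀ e : H.E, ∃ p ∈ P', p ⟨1, by omega⟩ = φ e.1.2 ∧
            p ⟨k + 2, by omega⟩ = φ e.1.1 := by
          intro e
          rcases hadjF _ _ e.2.1 with ⟨p, hp, h1, h2⟩ | h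
          · exfalso
            have h3 := (hall' e.1.2).2 e.2.2.2
            rw [← h2, hl2 p hp] at h3
            omega
          · exact h
        choose q hq1 hq2 hq3 using hex
        refine hfree (embed_of_paths k H G t s φ hφi (fun w => Fin.rev (ℓ w))
          (fun e i => q e (Fin.rev i)) (fun e => (hPmem _ (hq1 e)).1.1.1.rev)
          (fun e => ?_) (fun e => ?_) (fun e => ?_) (fun e => ?_) (fun e i => ?_) ?_)
        · rw [Fin.rev_zero]; exact (hPmem _ (hq1 e)).1.2.2
        · rw [← hq3 e]; congr 1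
        · rw [← hq2 e]; congr 1; apply Fin.ext; simp [Fin.val_rev]
        · rw [Fin.rev_last]; exact (hPmem _ (hq1 e)).1.2.1
        · have h1 := (hPmem _ (hq1 e)).2 (Fin.rev i)
          have h2 : (Fin.rev (⟨(i : ℕ) + 1, by omega⟩ : Fin (k + 3 + 1))) =
              ⟨(Fin.rev i : ℕ) + 1, by omega⟩ := by
            apply Fin.ext; simp [Fin.val_rev]; omega
          rw [h2, h1, Fin.rev_rev]
        · intro e e' hee i h
          have h2 : (Fin.rev (⟨(i : ℕ) + 2, by omega⟩ : Fin (k + 3 + 1))) =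
              ⟨(Fin.rev i : ℕ) + 2, by omega⟩ := by
            apply Fin.ext; simp [Fin.val_rev]; omega
          rw [h2] at h
          refine hP'ind _ (hq1 e) _ (hq1 e') ?_ (Or.inl ⟨Fin.rev i, h⟩)
          intro h2
          apply hee
          have h3 : φ e.1.1 = φ e'.1.1 := by rw [← hq3, ← hq3, h2]
          have h4 : φ e.1.2 = φ e'.1.2 := by rw [← hq2, ← hq2, h2]
          exact Subtype.ext (Prod.ext (hφi h3) (hφi h4))
  calc _ ≤ (k + 1 + 1) ^ (k + 1 + 1) * P1.card := hℓ
    _ ≤ (k + 2) ^ (k + 2) * (((k + 1) * (Cb R (k + 1) * Cb R (k + 1))) * P'.card) := Nat.mul_le_mul_left _ hP'card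
    _ ≤ _ := Nat.mul_le_mul_left _ (Nat.mul_le_mul_left _ hmain)

end Pool.Agent.Helper97.RE
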